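import Pool.Agent.H41.HYP.S2
import Pool.Agent.H70.HYP.NMU

/-!
# HYP, row TY0: type `0`
-/

set_option autoImplicit false

namespace Pool.HYP.TyZ

open Polynomial Pool.AVS

variable {L : Type} [Field L] (O : ValuationSubring L)

theorem oL_lin (c : O) (γ : O[X]) : oL O ((X - C c) * γ) = (X - C (c : L)) * oL O γ := by
  rw [oL, Polynomial.map_mul, Polynomial.map_sub, Polynomial.map_X, Polynomial.map_C]
  rfl

theorem ev (c : O) (e : O[X]) : (oL O e).eval (c : L) = ((e.eval c : O) : L) := by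
  rw [Polynomial.eval_map]
  exact Polynomial.eval₂_at_apply (algebraMap O L) c

/-- A monic polynomial, irreducible modulo the maximal ideal, is irreducible. -/
theorem irr {γ : O[X]} (hm : γ.Monic) (hi : Irreducible (rd O γ)) : Irreducible (oL O γ) := by
  have h1 : Irreducible γ := hm.irreducible_of_irreducible_map (IsLocalRing.residue O) γ hi
  exact (hm.irreducible_iff_irreducible_map_fraction_map (K := L)).1 h1

/-- The value at a point is a unit. -/
theorem unit_ev {g : ℕ} (hg : 1 ≤ g) {γ : O[X]} (hO : OkL O g γ) (c : O) :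
    IsUnit (γ.eval c) := by
  by_contra h
  have h1 : IsLocalRing.residue O (γ.eval c) = 0 := by
    rw [IsLocalRing.residue_eq_zero_iff]
    exact (IsLocalRing.mem_maximalIdeal _).2 h
  have h2 : (rd O γ).IsRoot (IsLocalRing.residue O c) := by
    rw [IsRoot, Polynomial.eval_map, Polynomial.eval₂_at_apply, h1]
  have h3 := degree_eq_one_of_irreducible_of_root hO.2.2 h2
  have h4 : (rd O γ).natDegree = 2 * g := by rw [hO.1.natDegree_map, hO.2.1]
  have h5 : (rd O γ).natDegree = 1 := natDegree_eq_of_degree_eq_some h3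
  rw [h4] at h5
  omega

theorem cop_lin {g : ℕ} (hg : 1 ≤ g) {γ : O[X]} (hO : OkL O g γ) (c : O) :
    IsCoprime (X - C (c : L)) (oL O γ) := by
  rw [(irreducible_X_sub_C (c : L)).coprime_iff_not_dvd, dvd_iff_isRoot, IsRoot, ev]
  intro h
  have h1 := unit_ev O hg hO c
  have h2 : γ.eval c = 0 := by exact_mod_cast h
  rw [h2] at h1
  exact not_isUnit_zero h1

end Pool.HYP.TyZ

namespace Pool.HYP

open Polynomial Pool.AVS

theorem ty0_of (hU : UNRStmt) : TY0Stmt := by
  intro L _ O π hL g c γ hg hO h hcop hN hty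
  obtain ⟨n, p, hp, ⟨D, hD⟩, hn, hsq⟩ := hty
  have hv : ((0 : Ty).1).val = 0 := rfl
  rw [hv, pow_zero, mul_one] at hsq
  obtain ⟨a, ha⟩ := hsq.1 rfl
  have hπ : π ≠ 0 := hL.pi_ne
  rw [TyZ.oL_lin] at hcop hN
  have hne : h.eval (c : L) ≠ 0 := by
    intro h0
    have h1 : IsCoprime h (X - C (c : L)) := hcop.of_mul_right_left
    have h2 : (X - C (c : L)) ∣ h := dvd_iff_isRoot.2 h0
    exact (irreducible_X_sub_C (c : L)).not_isUnit (h1.isUnit_of_dvd' h2 dvd_rfl)
  have ha0 : a ≠ 0 := by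
    rintro rfl
    exact hne (by rw [ha, mul_zero])
  obtain ⟨m, hm⟩ : (2 : ℤ) ∣ n := (ZMod.intCast_zmod_eq_zero_iff_dvd n 2).1 hn
  -- the norm of `p` is a square
  have hNp : IsSquare (Algebra.norm L (AdjoinRoot.mk (oL O γ) (oL O p))) := by
    obtain ⟨b, hb⟩ := hN
    rw [nmu.1 L (X - C (c : L)) (oL O γ) h (monic_X_sub_C _) (hO.1.map _), nmu.2.1 L (c : L) h,
      ha] at hb
    have h1 : AdjoinRoot.mk (oL O γ) h = AdjoinRoot.mk (oL O γ) (C (π ^ n)) *
        AdjoinRoot.mk (oL O γ) (oL O p) := by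
      rw [← map_mul, AdjoinRoot.mk_eq_mk]
      exact ⟨D, hD⟩
    have h2 : Algebra.norm L (AdjoinRoot.mk (oL O γ) (C (π ^ n))) =
        (π ^ m) ^ (oL O γ).natDegree * (π ^ m) ^ (oL O γ).natDegree := by
      rw [NMU.norm_C _ _ (hO.1.map _), ← mul_pow, ← zpow_add₀ hπ, hm, two_mul]
    rw [h1, map_mul, h2] at hb
    have h3 : (π ^ m) ^ (oL O γ).natDegree ≠ 0 := pow_ne_zero _ (zpow_ne_zero _ hπ)
    refine ⟨b / (a * (π ^ m) ^ (oL O γ).natDegree), ?_⟩
    field_simp
    linear_combination hb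
  obtain ⟨s0, hs0⟩ := (hU L O π hL γ hO.1 hO.2.2).2.2.2 p hp hNp
  have hs1 : ¬ rd O γ ∣ rd O s0 := by
    intro h1
    have h2 : rd O γ ∣ rd O p := by
      have h3 := dvd_add hs0 (dvd_pow h1 two_ne_zero)
      rwa [sub_add_cancel] at h3
    exact hO.2.2.not_isUnit (hp.isUnit_of_dvd' h2 dvd_rfl)
  obtain ⟨v, u, huv⟩ : IsCoprime (rd O γ) (rd O s0) := (hO.2.2.coprime_iff_not_dvd).2 hs1
  have hsur : Function.Surjective (rd O) :=
    Polynomial.map_surjective _ IsLocalRing.residue_surjective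
  obtain ⟨r0, hr0⟩ := hsur u
  obtain ⟨A', hA'⟩ : rd O γ ∣ rd O p * u ^ 2 - 1 := by
    obtain ⟨z, hz⟩ := hs0
    refine ⟨z * u ^ 2 - v * (u * rd O s0 + 1), ?_⟩
    linear_combination u ^ 2 * hz + (u * rd O s0 + 1) * huv
  obtain ⟨A, hA⟩ := hsur A'
  set B : O[X] := p * r0 ^ 2 - 1 - γ * A with hB
  have hB0 : rd O B = 0 := by
    have h1 : rd O B = rd O p * (rd O r0) ^ 2 - 1 - rd O γ * rd O A := by
      simp [hB, rd]
    rw [h1, hr0, hA, hA']
    ring
  obtain ⟨ι, hι⟩ := (TyZ.unit_ev O hg hO c).exists_right_inv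
  set P : O[X] := 1 + B * (1 - C ι * γ) with hP
  set G : L[X] := oL O γ with hG
  set R : L[X] := oL O r0 with hR
  set q : L[X] := C (π ^ (-m)) * R with hq
  set t : L[X] := C (ι : L) * (C a⁻¹ - q) with ht
  set s : L[X] := q + G * t with hs
  have hcq : C (π ^ n) * q ^ 2 = R ^ 2 := by
    have h1 : C (π ^ n) * C (π ^ (-m)) ^ 2 = (1 : L[X]) := by
      rw [← C_pow, ← C_mul, ← C_1]
      congr 1
      rw [hm, ← zpow_natCast, ← zpow_mul, ← zpow_add₀ hπ]
      simp
      ring_nf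
      simp
    rw [hq, mul_pow, ← mul_assoc, h1, one_mul]
  have hPL : oL O P = 1 + (oL O p * R ^ 2 - 1 - G * oL O A) * (1 - C (ι : L) * G) := by
    rw [hP, hB, hG, hR]
    simp [oL]
  have hseval : s.eval (c : L) = a⁻¹ := by
    have h1 : (ι : L) * ((γ.eval c : O) : L) = 1 := by
      rw [mul_comm]
      exact_mod_cast hι
    have h2 : s.eval (c : L) = q.eval (c : L) +
        G.eval (c : L) * ((ι : L) * (a⁻¹ - q.eval (c : L))) := by
      rw [hs, ht]
      simp only [eval_add, eval_mul, eval_sub, eval_C]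
    rw [h2, hG, TyZ.ev]
    linear_combination (a⁻¹ - q.eval (c : L)) * h1
  have hdv : IsCoprime (X - C (c : L)) G := TyZ.cop_lin O hg hO c
  refine ⟨s, P, ?_, ?_, ?_⟩
  · rw [TyZ.oL_lin]
    refine IsCoprime.mul_right ?_ ?_
    · rw [isCoprime_comm, (irreducible_X_sub_C (c : L)).coprime_iff_not_dvd, dvd_iff_isRoot,
        IsRoot, hseval]
      exact inv_ne_zero ha0
    · rw [isCoprime_comm, (TyZ.irr O hO.1 hO.2.2).coprime_iff_not_dvd]
      intro h1
      have h2 : G ∣ q := by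
        have h3 := dvd_sub h1 (Dvd.intro t rfl : G ∣ G * t)
        rwa [hs, add_sub_cancel_right] at h3
      have h3 : G ∣ R := by
        have h4 := Dvd.dvd.mul_left h2 (C (π ^ m))
        have h5 : C (π ^ m) * q = R := by
          rw [hq, ← mul_assoc, ← C_mul, ← zpow_add₀ hπ, add_neg_cancel, zpow_zero, C_1, one_mul]
        rwa [h5] at h4
      have h4 : γ ∣ r0 :=
        (Polynomial.map_dvd_map (algebraMap O L) (Subtype.val_injective) hO.1).1 h3
      obtain ⟨z, hz⟩ := h4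
      have h5 : rd O γ ∣ 1 := by
        rw [← huv, ← hr0, hz]
        refine dvd_add (Dvd.intro_left _ rfl) (Dvd.dvd.mul_right ?_ _)
        refine ⟨rd O z, ?_⟩
        simp [rd]
      exact hO.2.2.not_isUnit (isUnit_of_dvd_one h5)
  · rw [TyZ.oL_lin]
    refine hdv.mul_dvd ?_ ?_
    · rw [dvd_iff_isRoot, IsRoot, eval_sub, eval_mul, eval_pow, hseval, ha, TyZ.ev]
      have h1 : P.eval c = 1 := by
        rw [hP]
        simp only [eval_add, eval_mul, eval_sub, eval_one, eval_C]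
        rw [mul_comm ι, hι]
        ring
      rw [h1]
      have h2 : ((1 : O) : L) = 1 := rfl
      rw [h2]
      field_simp
      ring
    · refine ⟨D * s ^ 2 + C (π ^ n) * oL O p * (2 * q * t + G * t ^ 2) + oL O A +
        (oL O p * R ^ 2 - 1 - G * oL O A) * C (ι : L), ?_⟩
      rw [hPL]
      linear_combination s ^ 2 * hD + oL O p * hcq + C (π ^ n) * oL O p * (s + q + G * t) * hs
  · have h1 : rd O P = 1 + rd O B * (1 - rd O (C ι * γ)) := by
      simp [hP, rd]
    rw [h1, hB0, zero_mul, add_zero]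

end Pool.HYP
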