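import Pool.Agent.H41.HYP.S1

/-!
# HYP, row STAB: the stabiliser of a pencil with irreducible characteristic polynomial
-/

set_option autoImplicit false

namespace Pool.HYP.Stab

open Polynomial Matrix

variable {K : Type} [Field K] {n : ℕ}

/-- The pencil is `G` times the characteristic matrix of `T`. -/
theorem pen_eq (G S T : Matrix (Fin n) (Fin n) K) (h : G * T = S) :
    pen G S = (C : K →+* K[X]).mapMatrix G * T.charmatrix := by
  refine Matrix.ext fun i j => ?_
  have h1 : S i j = ∑ k, G i k * T k j := by rw [← h, Matrix.mul_apply]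
  have h2 : ∀ k, (C : K →+* K[X]).mapMatrix G i k * T.charmatrix k j =
      C (G i k) * (Matrix.diagonal (fun _ : Fin n => (X : K[X])) k j) - C (G i k * T k j) := by
    intro k
    rw [Matrix.charmatrix_apply, mul_sub, C_mul]
    rfl
  rw [Matrix.mul_apply, Finset.sum_congr rfl fun k _ => h2 k, Finset.sum_sub_distrib,
    Finset.sum_eq_single j (fun b _ hb => by rw [Matrix.diagonal_apply_ne _ hb, mul_zero])
      (fun hj => absurd (Finset.mem_univ _) hj), Matrix.diagonal_apply_eq, ← map_sum, ← h1]
  show X * C (G i j) - C (S i j) = _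
  rw [mul_comm]

/-- A polynomial which kills a nonzero vector is a multiple of an irreducible characteristic
polynomial. -/
theorem dvd_of_kill (T : Matrix (Fin n) (Fin n) K) (hI : Irreducible T.charpoly)
    (v : Fin n → K) (hv : v ≠ 0) (p : K[X]) (hp : (aeval T p) *ᵥ v = 0) : T.charpoly ∣ p := by
  by_contra hd
  have hc : IsCoprime T.charpoly p := (hI.coprime_iff_not_dvd).2 hd
  obtain ⟨a, b, hab⟩ := hc
  apply hv
  have h1 : (aeval T (a * T.charpoly + b * p)) *ᵥ v = v := by
    rw [hab]; simp
  rw [← h1]
  simp only [map_add, map_mul, Matrix.aeval_self_charpoly, mul_zero, zero_add]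
  rw [← Matrix.mulVec_mulVec, hp, Matrix.mulVec_zero]

/-- Every nonzero vector is cyclic. -/
theorem cyc (T : Matrix (Fin n) (Fin n) K) (hI : Irreducible T.charpoly)
    (v : Fin n → K) (hv : v ≠ 0) (w : Fin n → K) : ∃ p : K[X], (aeval T p) *ᵥ v = w := by
  let M : K[X] →ₗ[K] (Fin n → K) :=
    { toFun := fun p => (aeval T p) *ᵥ v
      map_add' := fun p q => by simp [Matrix.add_mulVec]
      map_smul' := fun c p => by simp [Matrix.smul_mulVec] }
  let L : (Fin n → K) →ₗ[K] (Fin n → K) :=
    M ∘ₗ (degreeLT K n).subtype ∘ₗ (degreeLTEquiv K n).symm.toLinearMap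
  have hL : Function.Injective L := by
    rw [← LinearMap.ker_eq_bot, LinearMap.ker_eq_bot']
    intro c hc
    have h1 : T.charpoly ∣ (((degreeLTEquiv K n).symm c : degreeLT K n) : K[X]) :=
      dvd_of_kill T hI v hv _ hc
    have h2 : (((degreeLTEquiv K n).symm c : degreeLT K n) : K[X]).degree < n :=
      mem_degreeLT.1 ((degreeLTEquiv K n).symm c).2
    have h3 : (((degreeLTEquiv K n).symm c : degreeLT K n) : K[X]) = 0 := by
      by_contra h4
      have h5 := degree_le_of_dvd h1 h4
      rw [Matrix.charpoly_degree_eq_dim, Fintype.card_fin] at h5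
      exact absurd h2 (not_lt.2 h5)
    have h6 : (degreeLTEquiv K n).symm c = 0 := Subtype.ext h3
    simpa using h6
  obtain ⟨c, hc⟩ := (LinearMap.injective_iff_surjective.1 hL) w
  exact ⟨_, hc⟩

end Pool.HYP.Stab

namespace Pool.HYP

open Polynomial Matrix

theorem stab : STABStmt := by
  intro K _ n G S g hG hS hdet hI h1 h2
  have hu : IsUnit G.det := isUnit_iff_ne_zero.2 hdet
  set T : Matrix (Fin n) (Fin n) K := G⁻¹ * S with hT
  have hGT : G * T = S := by rw [hT, Matrix.mul_nonsing_inv_cancel_left _ _ hu]
  have hP := Stab.pen_eq G S T hGT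
  have hI' : Irreducible T.charpoly := by
    rw [hP, Matrix.det_mul] at hI
    have h3 : ((C : K →+* K[X]).mapMatrix G).det = C G.det := by
      rw [← RingHom.map_det]
    rw [h3] at hI
    have h4 : IsUnit (C G.det : K[X]) := hu.map C
    exact (irreducible_isUnit_mul h4).1 hI
  have hg : IsUnit g.det := by
    have h3 : g.det * g.det * G.det = 1 * G.det := by
      have h4 := congrArg Matrix.det h1
      rw [Matrix.det_mul, Matrix.det_mul, Matrix.det_transpose] at h4
      rw [one_mul]
      calc g.det * g.det * G.det = g.det * G.det * g.det := by ring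
        _ = G.det := h4
    exact IsUnit.of_mul_eq_one _ (mul_right_cancel₀ hdet h3)
  have hTg : T * g = g * T := by
    have h3 : gᵀ * G * (g * T) = gᵀ * G * (T * g) := by
      calc gᵀ * G * (g * T) = gᵀ * G * g * T := by
            simp only [Matrix.mul_assoc]
        _ = S := by rw [h1, hGT]
        _ = gᵀ * S * g := h2.symm
        _ = gᵀ * G * (T * g) := by rw [← hGT]; simp only [Matrix.mul_assoc]
    have h4 : IsUnit (gᵀ * G).det := by
      rw [Matrix.det_mul, Matrix.det_transpose]; exact hg.mul hu
    have h5 := congrArg (fun A => (gᵀ * G)⁻¹ * A) h3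
    simp only [Matrix.nonsing_inv_mul_cancel_left _ _ h4] at h5
    exact h5.symm
  -- a nonzero vector
  have hn : 0 < n := by
    rcases Nat.eq_zero_or_pos n with h0 | h0
    · subst h0
      exfalso
      apply hI'.not_isUnit
      rw [Matrix.charpoly, Matrix.det_isEmpty]
      exact isUnit_one
    · exact h0
  let v : Fin n → K := fun _ => 1
  have hv : v ≠ 0 := fun h => one_ne_zero (congrFun h ⟨0, hn⟩)
  obtain ⟨r, hr⟩ := Stab.cyc T hI' v hv (g *ᵥ v)
  have hcom : ∀ p : K[X], g * aeval T p = aeval T p * g := by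
    intro p
    have h3 : Commute g T := hTg.symm
    have h4 : Commute g (aeval T p) := by
      induction p using Polynomial.induction_on' with
      | add p q hp hq => rw [map_add]; exact hp.add_right hq
      | monomial k a =>
        rw [aeval_monomial]
        exact (Algebra.commute_algebraMap_right a g).mul_right (h3.pow_right k)
    exact h4
  have hgr : g = aeval T r := by
    apply Matrix.ext_of_mulVec_single
    intro i
    obtain ⟨p, hp⟩ := Stab.cyc T hI' v hv (Pi.single i 1)
    rw [← hp, Matrix.mulVec_mulVec, Matrix.mulVec_mulVec, hcom, ← Matrix.mulVec_mulVec, ← hr,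
      Matrix.mulVec_mulVec, ← map_mul, ← map_mul, mul_comm]
  have hsa : ∀ p : K[X], (aeval T p)ᵀ * G = G * aeval T p := by
    intro p
    have h0 : Tᵀ * G = G * T := by
      have h3 : (G * T)ᵀ = S := by rw [hGT, hS]
      rw [Matrix.transpose_mul, hG] at h3
      rw [h3, hGT]
    have h4 : ∀ k : ℕ, (T ^ k)ᵀ * G = G * T ^ k := by
      intro k
      induction k with
      | zero => simp
      | succ k ih =>
        rw [pow_succ, Matrix.transpose_mul, Matrix.mul_assoc, ih, ← Matrix.mul_assoc, h0,
          Matrix.mul_assoc, ← pow_succ', ← pow_succ]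
    induction p using Polynomial.induction_on' with
    | add p q hp hq => rw [map_add, Matrix.transpose_add, Matrix.add_mul, Matrix.mul_add, hp, hq]
    | monomial k a =>
      rw [aeval_monomial, ← Algebra.smul_def, Matrix.transpose_smul, Matrix.smul_mul,
        Matrix.mul_smul, h4]
  have hsq : g * g = 1 := by
    have h3 : G * (g * g) = G * 1 := by
      rw [Matrix.mul_one, ← Matrix.mul_assoc]
      conv_lhs => rw [hgr, ← hsa, ← hgr]
      exact h1
    have h5 := congrArg (fun A => G⁻¹ * A) h3
    simpa only [Matrix.nonsing_inv_mul_cancel_left _ _ hu] using h5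
  have h6 : (aeval T ((r - 1) * (r + 1))) *ᵥ v = 0 := by
    have h7 : aeval T ((r - 1) * (r + 1)) = (0 : Matrix (Fin n) (Fin n) K) := by
      rw [map_mul, map_sub, map_add, map_one, ← hgr]
      calc (g - 1) * (g + 1) = g * g - 1 := by noncomm_ring
        _ = 0 := by rw [hsq, sub_self]
    rw [h7, Matrix.zero_mulVec]
  have h8 := Stab.dvd_of_kill T hI' v hv _ h6
  rcases hI'.prime.dvd_or_dvd h8 with h9 | h9
  · left
    obtain ⟨c, hc⟩ := h9
    have h10 : aeval T (r - 1) = (0 : Matrix (Fin n) (Fin n) K) := by
      rw [hc, map_mul, Matrix.aeval_self_charpoly, zero_mul]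
    rw [map_sub, map_one, ← hgr, sub_eq_zero] at h10
    exact h10
  · right
    obtain ⟨c, hc⟩ := h9
    have h10 : aeval T (r + 1) = (0 : Matrix (Fin n) (Fin n) K) := by
      rw [hc, map_mul, Matrix.aeval_self_charpoly, zero_mul]
    rw [map_add, map_one, ← hgr] at h10
    exact eq_neg_of_add_eq_zero_left h10

end Pool.HYP
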