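import Pool.Agent.H41.HYP.S2

/-!
# HYP, row LDE: Hensel's lemma for `f = (x - c) γ` modulo `π`
-/

set_option autoImplicit false

namespace Pool.HYP

open Polynomial Pool.AVS

theorem lde : LDEStmt := by
  intro L _ O π hL g f c₀ γ₀ hg hf hγm hγd hγi hfac
  have hne : γ₀.eval c₀ ≠ 0 := by
    intro h2
    have h3 := degree_eq_one_of_irreducible_of_root hγi h2
    have h5 : γ₀.natDegree = 1 := natDegree_eq_of_degree_eq_some h3
    rw [hγd] at h5
    omega
  obtain ⟨a₀, ha₀⟩ := IsLocalRing.residue_surjective (R := O) c₀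
  have h1 : f.eval a₀ ∈ IsLocalRing.maximalIdeal O := by
    rw [← IsLocalRing.residue_eq_zero_iff]
    have h2 : IsLocalRing.residue O (f.eval a₀) = (rd O f).eval c₀ := by
      rw [← ha₀, Polynomial.eval_map, Polynomial.eval₂_at_apply]
    rw [h2, hfac]
    simp
  have h2 : IsUnit (f.derivative.eval a₀) := by
    by_contra h
    have h3 : IsLocalRing.residue O (f.derivative.eval a₀) = 0 := by
      rw [IsLocalRing.residue_eq_zero_iff]
      exact (IsLocalRing.mem_maximalIdeal _).2 h
    have h4 : IsLocalRing.residue O (f.derivative.eval a₀) = (rd O f).derivative.eval c₀ := by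
      rw [← ha₀, Polynomial.derivative_map, Polynomial.eval_map, Polynomial.eval₂_at_apply]
    rw [h4, hfac] at h3
    simp at h3
    exact hne h3
  obtain ⟨c, hc, hc'⟩ := hL.hens.is_henselian f hf a₀ h1 h2
  have hcc : IsLocalRing.residue O c = c₀ := by
    have h3 := (IsLocalRing.residue_eq_zero_iff (R := O) _).2 hc'
    rw [map_sub, sub_eq_zero] at h3
    rw [h3, ha₀]
  have h3 : (X - C c) * (f /ₘ (X - C c)) = f := mul_divByMonic_eq_iff_isRoot.2 hc
  have h4 : rd O (f /ₘ (X - C c)) = γ₀ := by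
    have h5 := congrArg (rd O) h3
    rw [hfac] at h5
    have h6 : rd O ((X - C c) * (f /ₘ (X - C c))) = (X - C c₀) * rd O (f /ₘ (X - C c)) := by
      simp [rd, hcc]
    rw [h6] at h5
    exact mul_left_cancel₀ (X_sub_C_ne_zero c₀) h5
  have h5 : (f /ₘ (X - C c)).Monic := by
    refine Monic.of_mul_monic_left (monic_X_sub_C c) ?_
    rw [h3]
    exact hf
  refine ⟨c, f /ₘ (X - C c), ⟨h5, ?_, ?_⟩, h3.symm, hcc, h4⟩
  · rw [← hγd, ← h4, h5.natDegree_map]
  · rw [h4]
    exact hγi

end Pool.HYP
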