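import Pool.Agent.H41.HYP.S1

/-!
# HYP, rows INV and ZBD: blocks of zeros
-/

set_option autoImplicit false

namespace Pool.HYP.Inv

open Polynomial Matrix

/-- The rotation of the indices which moves the first `k` to the end. -/
def rot (n k : ℕ) (hk : k ≤ n) : Equiv.Perm (Fin n) where
  toFun j := if h : (j : ℕ) < k then ⟨j + (n - k), by omega⟩ else ⟨j - k, by omega⟩
  invFun j := if h : (j : ℕ) < n - k then ⟨j + k, by omega⟩ else ⟨j - (n - k), by omega⟩
  left_inv j := by
    by_cases h : (j : ℕ) < k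
    · have h1 : ¬ ((j : ℕ) + (n - k) < n - k) := by omega
      simp only [h, dite_true, h1, dite_false]
      ext
      simp
    · have h1 : (j : ℕ) - k < n - k := by omega
      simp only [h, dite_false, h1, dite_true]
      ext
      simp only
      omega
  right_inv j := by
    by_cases h : (j : ℕ) < n - k
    · have h1 : ¬ ((j : ℕ) + k < k) := by omega
      simp only [h, dite_true, h1, dite_false]
      ext
      simp
    · have h1 : (j : ℕ) - (n - k) < k := by omega
      simp only [h, dite_false, h1, dite_true]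
      ext
      simp only
      omega

theorem rot_ge {n k : ℕ} (hk : k ≤ n) (j : Fin n) (h : k ≤ (j : ℕ)) :
    ((rot n k hk j : Fin n) : ℕ) < n - k := by
  have h1 : ¬ ((j : ℕ) < k) := by omega
  show ((if h : (j : ℕ) < k then (⟨j + (n - k), by omega⟩ : Fin n) else ⟨j - k, by omega⟩ :
    Fin n) : ℕ) < n - k
  rw [dif_neg h1]
  show (j : ℕ) - k < n - k
  omega

/-- The determinant of a matrix with a block of zeros of size `k × (n - k)`. -/
theorem det_blk {R : Type} [CommRing R] {n k : ℕ} (hk : k ≤ n) (M : Matrix (Fin n) (Fin n) R)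
    (h : ∀ i j : Fin n, (i : ℕ) < k → (j : ℕ) < n - k → M i j = 0) :
    ((Equiv.Perm.sign (rot n k hk) : ℤ) : R) * M.det =
      (toSquareBlockProp (M.submatrix id (rot n k hk)) fun i => k ≤ (i : ℕ)).det *
      (toSquareBlockProp (M.submatrix id (rot n k hk)) fun i => ¬ k ≤ (i : ℕ)).det := by
  rw [← Matrix.det_permute', ← Matrix.twoBlockTriangular_det]
  intro i hi j hj
  exact h i _ (by omega) (rot_ge hk j hj)

/-- A block of a pencil has a determinant of positive degree. -/
theorem blk_deg {K : Type} [Field K] {n : ℕ} (p : Fin n → Prop) [DecidablePred p]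
    (G S : Matrix (Fin n) (Fin n) K) (e : Equiv.Perm (Fin n)) (i0 : Fin n) (hi0 : p i0)
    (hG : (toSquareBlockProp (G.submatrix id e) p).det ≠ 0) :
    ¬ IsUnit (toSquareBlockProp ((pen G S).submatrix id e) p).det := by
  intro hu
  have h0 : toSquareBlockProp ((pen G S).submatrix id e) p =
      (X : K[X]) • (toSquareBlockProp (G.submatrix id e) p).map C +
        (toSquareBlockProp ((-S).submatrix id e) p).map C := by
    refine Matrix.ext fun i j => ?_
    simp [toSquareBlockProp, pen, sub_eq_add_neg]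
  have h1 := natDegree_eq_zero_of_isUnit hu
  rw [h0] at h1
  have h2 := coeff_det_X_add_C_card (toSquareBlockProp (G.submatrix id e) p)
    (toSquareBlockProp ((-S).submatrix id e) p)
  have h3 : 0 < Fintype.card {i // p i} := Fintype.card_pos_iff.2 ⟨⟨i0, hi0⟩⟩
  rw [coeff_eq_zero_of_natDegree_lt (by rw [h1]; exact h3)] at h2
  exact hG h2.symm

end Pool.HYP.Inv

namespace Pool.HYP

open Polynomial Matrix

theorem inv : INVStmt := by
  intro K _ n k G S h1 hk hG h hI
  have hG2 := Inv.det_blk hk.le G fun i j hi hj => (h i j hi hj).1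
  have hP2 := Inv.det_blk hk.le (pen G S) fun i j hi hj => by
    show X * C (G i j) - C (S i j) = 0
    rw [(h i j hi hj).1, (h i j hi hj).2]; simp
  have hs : IsUnit (((Equiv.Perm.sign (Inv.rot n k hk.le) : ℤ) : K[X])) :=
    ((Equiv.Perm.sign (Inv.rot n k hk.le)).isUnit).map (Int.castRingHom K[X])
  have hsK : IsUnit (((Equiv.Perm.sign (Inv.rot n k hk.le) : ℤ) : K)) :=
    ((Equiv.Perm.sign (Inv.rot n k hk.le)).isUnit).map (Int.castRingHom K)
  have hne := mul_ne_zero hsK.ne_zero hG
  rw [hG2] at hne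
  have hI2 : Irreducible (((Equiv.Perm.sign (Inv.rot n k hk.le) : ℤ) : K[X]) * (pen G S).det) :=
    (irreducible_isUnit_mul hs).2 hI
  rw [hP2] at hI2
  rcases hI2.isUnit_or_isUnit rfl with hu | hu
  · exact Inv.blk_deg (fun i => k ≤ (i : ℕ)) G S _ ⟨k, hk⟩ le_rfl (left_ne_zero_of_mul hne) hu
  · exact Inv.blk_deg (fun i => ¬ k ≤ (i : ℕ)) G S _ ⟨0, by omega⟩ (by simp; omega)
      (right_ne_zero_of_mul hne) hu

end Pool.HYP
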